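import Pool.Agent.R627.AC.Stm

/-!
Project AC, part AC5: contact with the identity (helper209).
-/
namespace Pool.Agent.R627.AC

open PowerSeries Metric

open Filter Topology in
/-- The logarithmic derivative at a maximum of the modulus on a closed disc is real and
nonnegative. -/
theorem contact_jack {b : ℂ → ℂ} {r : ℝ} {z₀ : ℂ} (hb : DifferentiableOn ℂ b (ball 0 r))
    (hz : z₀ ∈ ball (0:ℂ) r) (hb0 : b z₀ ≠ 0)
    (hmax : ∀ z : ℂ, ‖z‖ ≤ ‖z₀‖ → ‖b z‖ ≤ ‖b z₀‖) :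
    0 ≤ (z₀ * deriv b z₀ / b z₀).re ∧ (z₀ * deriv b z₀ / b z₀).im = 0 := by
  set c : ℂ := z₀ * deriv b z₀ / b z₀ with hc
  have hbd : HasDerivAt b (deriv b z₀) z₀ :=
    (hb.differentiableAt (isOpen_ball.mem_nhds hz)).hasDerivAt
  have hexp : HasDerivAt (fun w : ℂ => z₀ * Complex.exp w) z₀ 0 := by
    have h1 := (Complex.hasDerivAt_exp 0).const_mul z₀
    rwa [Complex.exp_zero, mul_one] at h1
  have hcomp : HasDerivAt (fun w : ℂ => b (z₀ * Complex.exp w) / b z₀) c 0 := by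
    have h1 : HasDerivAt (fun w : ℂ => b (z₀ * Complex.exp w)) (deriv b z₀ * z₀) 0 := by
      refine HasDerivAt.comp (0:ℂ) (h := fun w : ℂ => z₀ * Complex.exp w) (h₂ := b) ?_ hexp
      rw [Complex.exp_zero, mul_one]
      exact hbd
    have h2 := h1.div_const (b z₀)
    rw [hc, mul_comm z₀]
    exact h2
  have hre : HasFDerivAt (fun w : ℂ => (b (z₀ * Complex.exp w) / b z₀).re)
      (Complex.reCLM.comp ((ContinuousLinearMap.toSpanSingleton ℂ c).restrictScalars ℝ)) 0 :=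
    Complex.reCLM.hasFDerivAt.comp (0:ℂ) (hcomp.hasFDerivAt.restrictScalars ℝ)
  have hloc : IsLocalMaxOn (fun w : ℂ => (b (z₀ * Complex.exp w) / b z₀).re) {w | w.re ≤ 0} 0 := by
    refine IsMaxOn.localize ?_
    intro w hw
    have hw' : w.re ≤ 0 := hw
    show (b (z₀ * Complex.exp w) / b z₀).re ≤ (b (z₀ * Complex.exp 0) / b z₀).re
    rw [Complex.exp_zero, mul_one, div_self hb0, Complex.one_re]
    refine (Complex.re_le_norm _).trans ?_
    rw [norm_div, div_le_one (norm_pos_iff.2 hb0)]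
    refine hmax _ ?_
    rw [norm_mul, Complex.norm_exp]
    exact mul_le_of_le_one_right (norm_nonneg _) (Real.exp_le_one_iff.2 hw')
  have hkey : ∀ y : ℂ, y.re ≤ 0 → (y * c).re ≤ 0 := by
    intro y hy
    have h1 := hloc.hasFDerivWithinAt_nonpos hre.hasFDerivWithinAt
      (y := y) (mem_posTangentConeAt_of_segment_subset ?_)
    · simpa using h1
    · have hconv : Convex ℝ {w : ℂ | w.re ≤ 0} := convex_halfSpace_re_le 0
      refine hconv.segment_subset ?_ ?_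
      · simp
      · simpa using hy
  have h1 := hkey (-1) (by simp)
  have h2 := hkey Complex.I (by simp)
  have h3 := hkey (-Complex.I) (by simp)
  simp only [neg_mul, one_mul, Complex.neg_re, Complex.mul_re, Complex.I_re, Complex.I_im,
    zero_mul, zero_sub, neg_neg] at h1 h2 h3
  exact ⟨by linarith, by linarith⟩

/-- Schwarz's lemma for functions with positive real part. -/
theorem contact_schwarz {p : ℂ → ℂ} (hp : An p) (hp0 : p 0 = 1)
    (hpos : ∀ z ∈ ball (0:ℂ) 1, 0 < (p z).re) {z : ℂ} (hz : z ∈ ball (0:ℂ) 1) :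
    ‖p z - 1‖ ≤ ‖z‖ * ‖p z + 1‖ := by
  have hne : ∀ w ∈ ball (0:ℂ) 1, p w + 1 ≠ 0 := by
    intro w hw h0
    have h1 := hpos w hw
    have h2 := congrArg Complex.re h0
    rw [Complex.add_re, Complex.one_re, Complex.zero_re] at h2
    linarith
  have hle : ∀ w ∈ ball (0:ℂ) 1, ‖p w - 1‖ ≤ ‖p w + 1‖ := by
    intro w hw
    have h1 := hpos w hw
    refine (sq_le_sq₀ (norm_nonneg _) (norm_nonneg _)).1 ?_
    rw [← Complex.normSq_eq_norm_sq, ← Complex.normSq_eq_norm_sq, Complex.normSq_apply,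
      Complex.normSq_apply]
    simp only [Complex.sub_re, Complex.add_re, Complex.one_re, Complex.sub_im, Complex.add_im,
      Complex.one_im]
    nlinarith
  have hd : DifferentiableOn ℂ (fun w => (p w - 1) / (p w + 1)) (ball 0 1) :=
    (hp.sub_const 1).div (hp.add_const 1) hne
  have h := Complex.norm_le_norm_of_mapsTo_ball hd (fun w hw => ?_) (by simp [hp0])
    (mem_ball_zero_iff.1 hz)
  · rw [norm_div, div_le_iff₀ (norm_pos_iff.2 (hne z hz))] at h
    exact h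
  · rw [mem_closedBall_zero_iff, norm_div, div_le_one (norm_pos_iff.2 (hne w hw))]
    exact hle w hw

/-- The comparison of the two linear fractional expressions. -/
theorem contact_ineq {ζ d : ℂ} (hζ : ‖ζ‖ < 1) (hd : 0 ≤ d.re) :
    ‖1 - ζ + d * ζ‖ ≤ ‖1 - ζ + d‖ := by
  refine (sq_le_sq₀ (norm_nonneg _) (norm_nonneg _)).1 ?_
  have h1 : ζ.re ^ 2 + ζ.im ^ 2 < 1 := by
    have h2 : ‖ζ‖ ^ 2 < 1 := by nlinarith [norm_nonneg ζ]
    rw [← Complex.normSq_eq_norm_sq, Complex.normSq_apply] at h2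
    nlinarith
  rw [← Complex.normSq_eq_norm_sq, ← Complex.normSq_eq_norm_sq, Complex.normSq_apply,
    Complex.normSq_apply]
  simp only [Complex.sub_re, Complex.add_re, Complex.one_re, Complex.sub_im, Complex.add_im,
    Complex.one_im, Complex.mul_re, Complex.mul_im]
  have h2 : 0 ≤ d.re * ((1 - ζ.re) ^ 2 + ζ.im ^ 2) := by positivity
  have h3 : 0 ≤ (d.re ^ 2 + d.im ^ 2) * (1 - (ζ.re ^ 2 + ζ.im ^ 2)) :=
    mul_nonneg (by positivity) (by linarith)
  nlinarith [h2, h3]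

theorem contact : StContact := by
  intro α Q q p ω r hα hQ hN hp hp0 hppos hq hode hr hr1 hω hω0 hωb hQω z₁ hz₁
  by_contra hcon
  push Not at hcon
  have hrne : r ≠ 0 := hr.ne'
  have hnh : ball (0:ℂ) r ∈ nhds (0:ℂ) := ball_mem_nhds _ hr
  have hz₁0 : z₁ ≠ 0 := by
    rintro rfl
    rw [hω0] at hcon
    exact lt_irrefl _ hcon
  set b : ℂ → ℂ := dslope ω 0 with hbdef
  have hb : DifferentiableOn ℂ b (ball 0 r) := (Complex.differentiableOn_dslope hnh).2 hω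
  have hωb' : ∀ z, ω z = z * b z := by
    intro z
    have h1 := sub_smul_dslope ω 0 z
    rw [sub_zero, hω0, sub_zero, smul_eq_mul] at h1
    exact h1.symm
  have hρ : 0 < ‖z₁‖ := norm_pos_iff.2 hz₁0
  have hρr : ‖z₁‖ < r := mem_ball_zero_iff.1 hz₁
  have hcl : closure (ball (0:ℂ) ‖z₁‖) = closedBall 0 ‖z₁‖ := closure_ball _ hρ.ne'
  have hfr : frontier (ball (0:ℂ) ‖z₁‖) = sphere 0 ‖z₁‖ := frontier_ball _ hρ.ne'
  have hdc : DiffContOnCl ℂ b (ball (0:ℂ) ‖z₁‖) := by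
    apply DifferentiableOn.diffContOnCl
    rw [hcl]
    exact hb.mono (closedBall_subset_ball hρr)
  obtain ⟨z₀, hz₀, hmax⟩ := Complex.exists_mem_frontier_isMaxOn_norm isBounded_ball
    ⟨0, mem_ball_self hρ⟩ hdc
  rw [hfr, mem_sphere_zero_iff_norm] at hz₀
  rw [hcl] at hmax
  have hmax' : ∀ z : ℂ, ‖z‖ ≤ ‖z₀‖ → ‖b z‖ ≤ ‖b z₀‖ := by
    intro z hz
    exact hmax (mem_closedBall_zero_iff.2 (by rw [← hz₀]; exact hz))
  have hb1 : 1 < ‖b z₁‖ := by
    rw [hωb' z₁, norm_mul] at hcon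
    by_contra h1
    push Not at h1
    nlinarith
  have hb0' : 1 < ‖b z₀‖ := hb1.trans_le (hmax' z₁ hz₀.symm.le)
  have hb0 : b z₀ ≠ 0 := by
    intro h0
    rw [h0, norm_zero] at hb0'
    linarith
  have hz₀r : z₀ ∈ ball (0:ℂ) r := mem_ball_zero_iff.2 (by rw [hz₀]; exact hρr)
  have hz₀1 : z₀ ∈ ball (0:ℂ) 1 := ball_subset_ball hr1 hz₀r
  have hz₀0 : z₀ ≠ 0 := by
    intro h0
    rw [h0, norm_zero] at hz₀
    linarith
  obtain ⟨hc1, hc2⟩ := contact_jack hb hz₀r hb0 hmax'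
  set c : ℂ := z₀ * deriv b z₀ / b z₀ with hc
  set ζ : ℂ := ω z₀ with hζ
  have hζ1 : ζ ∈ ball (0:ℂ) 1 := hωb z₀ hz₀r
  have hζn : ‖ζ‖ < 1 := mem_ball_zero_iff.1 hζ1
  have hζz : ‖z₀‖ < ‖ζ‖ := by
    rw [hζ, hωb' z₀, norm_mul]
    have := norm_pos_iff.2 hz₀0
    nlinarith
  have hζ0 : ζ ≠ 0 := by
    intro h0
    rw [h0, norm_zero] at hζz
    exact absurd hζz (not_lt.2 (norm_nonneg _))
  have h1ζ : 1 - ζ ≠ 0 := by
    intro h0
    have h1 : ζ = 1 := (sub_eq_zero.1 h0).symm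
    rw [h1, norm_one] at hζn
    exact lt_irrefl _ hζn
  -- derivatives
  have hbd : HasDerivAt b (deriv b z₀) z₀ :=
    (hb.differentiableAt (isOpen_ball.mem_nhds hz₀r)).hasDerivAt
  have hωd : HasDerivAt ω (b z₀ + z₀ * deriv b z₀) z₀ := by
    have h1 : HasDerivAt (fun z => z * b z) (1 * b z₀ + z₀ * deriv b z₀) z₀ :=
      (hasDerivAt_id z₀).mul hbd
    rw [one_mul] at h1
    have h2 : ω = fun z => z * b z := funext hωb'
    rw [h2]
    exact h1
  have hQd : HasDerivAt Q (deriv Q ζ) ζ :=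
    (hQ.an.differentiableAt (isOpen_ball.mem_nhds hζ1)).hasDerivAt
  have hqd : deriv q z₀ = deriv Q ζ * (b z₀ + z₀ * deriv b z₀) := by
    have h1 : HasDerivAt (fun z => Q (ω z)) (deriv Q ζ * (b z₀ + z₀ * deriv b z₀)) z₀ :=
      HasDerivAt.comp z₀ hQd hωd
    have h2 : (fun z => Q (ω z)) =ᶠ[nhds z₀] q := by
      filter_upwards [isOpen_ball.mem_nhds hz₀r] with z hz
      exact hQω z hz
    rw [← h2.deriv_eq]
    exact h1.deriv
  have hcb : z₀ * deriv b z₀ = c * b z₀ := by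
    rw [hc]
    field_simp
  have hζb : ζ = z₀ * b z₀ := hωb' z₀
  have hQζ : Q ζ ≠ 0 := by
    intro h0
    have h1 := hQ.pos ζ hζ1
    rw [h0, Complex.zero_re] at h1
    exact lt_irrefl _ h1
  have h1 := hode z₀ hz₀1
  have h2 := hQ.ode ζ hζ1
  rw [hqd, ← hQω z₀ hz₀r, hcb] at h1
  have h3 : Q ζ * (p z₀ - Q ζ) = Q ζ * ((1 + c) * ((1 + ζ) / (1 - ζ) - Q ζ)) := by
    rw [← h1]
    have h4 : (α : ℂ) * z₀ * (deriv Q ζ * (b z₀ + c * b z₀)) =
        (1 + c) * ((α : ℂ) * (z₀ * b z₀) * deriv Q ζ) := by ring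
    rw [h4, ← hζb, h2]
    ring
  have h4 : p z₀ = (1 + ζ) / (1 - ζ) + c * ((1 + ζ) / (1 - ζ) - Q ζ) := by
    have h5 := mul_left_cancel₀ hQζ h3
    linear_combination h5
  set N : ℂ := ((1 + ζ) / (1 - ζ) - Q ζ) * (1 - ζ) ^ 2 / ζ with hNdef
  have hNpos : 0 < N.re := hN ζ hζ1 hζ0
  have hPN : (1 + ζ) / (1 - ζ) - Q ζ = N * ζ / (1 - ζ) ^ 2 := by
    rw [hNdef]
    field_simp
  set d : ℂ := c * N / 2 with hd
  have hdre : 0 ≤ d.re := by
    have h5 : d.re = c.re * N.re / 2 := by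
      rw [hd]
      have : c = (c.re : ℂ) := by
        apply Complex.ext
        · simp
        · simp [hc2]
      rw [this]
      simp [Complex.mul_re]
    rw [h5]
    positivity
  have hpm : p z₀ - 1 = 2 * ζ * (1 - ζ + d) / (1 - ζ) ^ 2 := by
    rw [h4, hPN, hd]
    field_simp
    ring
  have hpp : p z₀ + 1 = 2 * (1 - ζ + d * ζ) / (1 - ζ) ^ 2 := by
    rw [h4, hPN, hd]
    field_simp
    ring
  have h6 := contact_schwarz hp hp0 hppos hz₀1
  rw [hpm, hpp, norm_div, norm_div, norm_mul, norm_mul, norm_mul] at h6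
  have h7 : 0 < ‖(1 - ζ) ^ 2‖ := norm_pos_iff.2 (pow_ne_zero _ h1ζ)
  rw [← mul_div_assoc, div_le_div_iff_of_pos_right h7] at h6
  have h8 := contact_ineq hζn hdre
  have h9 : 0 < ‖1 - ζ + d‖ := by
    refine norm_pos_iff.2 fun h0 => ?_
    have h10 := congrArg Complex.re h0
    rw [Complex.add_re, Complex.sub_re, Complex.one_re, Complex.zero_re] at h10
    have h11 := (Complex.re_le_norm ζ).trans_lt hζn
    linarith
  have h12 : ‖(2:ℂ)‖ = 2 := by simp
  rw [h12] at h6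
  have h13 := norm_nonneg z₀
  nlinarith [mul_le_mul_of_nonneg_left h8 h13]

end Pool.Agent.R627.AC
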